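import Pool.Agent.U847.XI
import Pool.Agent.U847.XW
import Pool.Agent.N625.PT.X8
import Pool.Agent.Y877.SxI

/-!
# EVERY large `n`: the number of the decompositions `n = k + m` with `p_k + N` and `p_{p_m} + N'` prime, for multiples `N`,
`N'` of integers whose digits label walks in infinite graphs

The even numbers `N_j = h_j M (c_j + κ_j v_j)`, where `M` is the product of the primes `≤ y` and `v_j` runs over the integers
whose `d` digits are the labels of the walks between two vertices of a graph, for example of the Cayley graph of a group: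
then these are the integers whose digits spell a given element of the group. Such a set can contain as few as `N ^ ε`
integers below `N`, and in general it is not automatic.

From Mathlib: `Nat.nth Nat.Prime`: the sequence of the primes; `primorial y`: the product of the primes `≤ y`;
`Finset.Ioo 0 n`: the integers `0 < k < n`; `Fintype.piFinset S`: the vectors `v` with `v j ∈ S j`.

Method: the exponential sum over the walks is dominated by the iterates of the adjacency operator of the graph, which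
loses a constant factor at every digit where the frequency is not extremal (starting files, `Pool.Agent.N625.GW`). New here:
this decay is exponential in the number of these digits for all the fractions with a denominator free of small primes
(`Pool.Agent.U847.XC`), it gives the sieve with error terms smaller than all powers of `d` (`Pool.Agent.U847.XD`), the second
moment and the number of the primes in random translates of dense sequences (`Pool.Agent.U847.XG`) and the case of several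
translates (`Pool.Agent.U847.XH`, `Pool.Agent.U847.XI`). The proofs of these steps are those of the starting files
`Pool.Agent.N625.PT.X2` - `X12` (integers with exchangeable blocks of digits), with the class of distributions replaced.
-/

set_option autoImplicit false

namespace Pool.Agent.Results.MP_04e9b2_nt.WalkPairs

open Finset

/-- The digits `a < b` act on the set `X` of the vertices: an edge with the label `a` leads from `x` to `y` if
`δ x a = some y` (at most one edge with the label `a` starts at `x`). The number of the edges from `x` to `y` equals the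
number of the edges from `y` to `x`, and at least two edges start at every vertex. The graph may be infinite. -/
structure Graph {X : Type} (b : ℕ) (δ : X → ℕ → Option X) : Prop where
  symm : ∀ x y : X, {a : ℕ | a < b ∧ δ x a = some y}.ncard = {a : ℕ | a < b ∧ δ y a = some x}.ncard
  two : ∀ x : X, ∃ a a' : ℕ, a < a' ∧ a' < b ∧ (δ x a).isSome ∧ (δ x a').isSome

open Classical in
/-- The integers `v < b ^ k` whose `k` digits in base `b`, from the most significant to the least significant one (the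
digit number `i`, `0 ≤ i < k`, from the left is `v / b ^ (k - 1 - i) % b`), are the labels of a walk from `x` to `y`. -/
noncomputable def walks {X : Type} (b : ℕ) (δ : X → ℕ → Option X) (k : ℕ) (x y : X) : Finset ℕ :=
  (range (b ^ k)).filter fun v =>
    ((List.range k).map fun i => v / b ^ (k - 1 - i) % b).foldl (fun s a => s.bind fun z => δ z a) (some x) = some y

/-- the `n`-th prime, `n ≥ 1` -/
noncomputable def p (n : ℕ) : ℕ := Nat.nth Nat.Prime (n - 1)

/-- the product of `1 - 1/q` over the primes `q ≤ y` -/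
noncomputable def V (y : ℕ) : ℝ := ∏ q ∈ (Icc 1 y).filter Nat.Prime, (1 - 1 / (q : ℝ))

/-- the multiple of the product of the primes `≤ y` given by the integers `h` and `c + κ v` -/
def Nv (y h : ℕ) (c κ : ℤ) (v : ℕ) : ℤ := ((primorial y * h : ℕ) : ℤ) * (c + κ * v)

/-- the `k ∈ K` such that `p_k + N` and `p_{p_m} + N'` are prime, where `m = n - k` -/
noncomputable def Good (n : ℕ) (K : Finset ℕ) (N N' : ℤ) : Finset ℕ :=
  K.filter (fun k : ℕ => (N + (p k : ℕ)).toNat.Prime ∧ (N' + (p (p (n - k)) : ℕ)).toNat.Prime)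

lemma p_inj (n : ℕ) : Set.InjOn p (Ioo 0 n : Finset ℕ) := by
  intro a ha b hb hab
  rw [mem_coe, mem_Ioo] at ha hb
  have := Nat.nth_injective Nat.infinite_setOfPred_prime hab
  omega

lemma pp_inj (n : ℕ) : Set.InjOn (fun k => p (p (n - k))) (Ioo 0 n : Finset ℕ) := by
  intro a ha b hb hab
  rw [mem_coe, mem_Ioo] at ha hb
  have h1 := Nat.nth_injective Nat.infinite_setOfPred_prime hab
  have h2 : 2 ≤ p (n - a) := (Nat.prime_nth_prime _).two_le
  have h3 : 2 ≤ p (n - b) := (Nat.prime_nth_prime _).two_le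
  have h4 : p (n - a) = p (n - b) := by omega
  have h5 := Nat.nth_injective Nat.infinite_setOfPred_prime h4
  omega

open Classical in
/-- the law for classes of distributions -/
theorem main (b q₀ : ℕ) (hb : 2 ≤ b) (Cl : Fin 2 → ℕ → (ℕ → ℝ) → Prop) (hC : ∀ j, Pool.Agent.U847.XP.SCls b q₀ (Cl j))
    (κ : Fin 2 → ℤ) (hκ : ∀ j, κ j ≠ 0) (B J A C K₁ : ℕ) (θ : ℝ) (hθ : 0 < θ) (ε : ℝ) (hε : 0 < ε) (hε1 : ε ≤ 1) :
    ∃ d₀ : ℕ, ∀ d : ℕ, d₀ ≤ d → ∀ μ : Fin 2 → ℕ → ℝ, (∀ j, Cl j d (μ j)) →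
    ∀ y : ℕ, θ * Real.log d ≤ y → y ≤ K₁ * Real.log d → ∀ c : Fin 2 → ℤ, (∀ j, |c j| ≤ B * (b : ℤ) ^ d) →
    ∀ h : Fin 2 → ℕ, (∀ j, 1 ≤ h j ∧ h j ≤ d ^ J) → ∀ n : ℕ, b ^ d ≤ n * d ^ C → n ≤ b ^ d * d ^ C →
    ∀ K : Finset ℕ, K ⊆ Ioo 0 n → (n : ℝ) ≤ K.card * (d : ℝ) ^ A →
    ∑ v ∈ Fintype.piFinset (fun _ : Fin 2 => range (b ^ d)),
      (if (∀ j, 0 < Nv y (h j) (c j) (κ j) (v j)) →
        |((Good n K (Nv y (h 0) (c 0) (κ 0) (v 0)) (Nv y (h 1) (c 1) (κ 1) (v 1))).card : ℝ) -
          K.card / (V y * (d * Real.log b)) ^ 2| ≤ ε * (K.card / (V y * (d * Real.log b)) ^ 2) then 0 else ∏ j, μ j (v j)) ≤ ε := by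
  obtain ⟨k₀, h0⟩ := Pool.Agent.U847.XP.pair_f b q₀ hb Cl hC κ hκ B J (A + 10) (C + 10) K₁ θ hθ ε hε hε1
  obtain ⟨k₁, h1⟩ := Pool.Agent.N625.PT.X_large b C hb
  obtain ⟨k₂, h2⟩ := Pool.Agent.N625.PT.log_X b C hb
  obtain ⟨n4, hn4⟩ := Pool.Agent.Y877.SX.nth_le_log
  obtain ⟨n5, hn5⟩ := Pool.Agent.Y877.SX.nth_nth_le_log
  refine ⟨max (max k₀ k₁) (max k₂ (max n4 (max n5 3))), fun d hd μ hμ y hy1 hy2 c hc h hh n hn1 hn2 K hK hKA => ?_⟩
  have b0 : 3 ≤ d := by omega
  have hdr : (3 : ℝ) ≤ d := by exact_mod_cast b0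
  have hdn := h1 d (by omega) n hn1
  have hlog := h2 d (by omega) n hn2
  have hl0 : 0 ≤ Real.log n := Real.log_natCast_nonneg n
  have hn0 : (0 : ℝ) ≤ n := Nat.cast_nonneg n
  have hX1 : b ^ d ≤ (n * d ^ 10) * d ^ (C + 10) := by
    refine hn1.trans ?_
    rw [mul_assoc, ← pow_add]
    exact Nat.mul_le_mul_left _ (Nat.pow_le_pow_right (by omega) (by omega))
  have hX2 : n * d ^ 10 ≤ b ^ d * d ^ (C + 10) := by
    calc n * d ^ 10 ≤ (b ^ d * d ^ C) * d ^ 10 := Nat.mul_le_mul_right _ hn2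
      _ = _ := by rw [mul_assoc, ← pow_add]
  have hf : ∀ k ∈ K, 1 ≤ p k ∧ p k ≤ n * d ^ 10 ∧ ((p k).Coprime (primorial y * h 0) ∨ (p k).Prime) := by
    intro k hk
    have hk' := mem_Ioo.1 (hK hk)
    have hp : (p k).Prime := Nat.prime_nth_prime _
    refine ⟨hp.pos, ?_, Or.inr hp⟩
    have g1 : ((p k : ℕ) : ℝ) ≤ n * (d : ℝ) ^ 10 := by
      refine (hn4 n (by omega) (k - 1) (by omega)).trans ?_
      apply mul_le_mul_of_nonneg_left _ hn0
      calc Real.log n ^ 2 ≤ ((d : ℝ) ^ 2) ^ 2 := pow_le_pow_left₀ hl0 hlog _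
        _ = (d : ℝ) ^ 4 := by rw [← pow_mul]
        _ ≤ (d : ℝ) ^ 10 := pow_le_pow_right₀ (by linarith) (by norm_num)
    exact_mod_cast g1
  have hg : ∀ k ∈ K, 1 ≤ p (p (n - k)) ∧ p (p (n - k)) ≤ n * d ^ 10 ∧
      ((p (p (n - k))).Coprime (primorial y * h 1) ∨ (p (p (n - k))).Prime) := by
    intro k hk
    have hk' := mem_Ioo.1 (hK hk)
    have hp : (p (p (n - k))).Prime := Nat.prime_nth_prime _
    refine ⟨hp.pos, ?_, Or.inr hp⟩
    have g1 : ((p (p (n - k)) : ℕ) : ℝ) ≤ n * (d : ℝ) ^ 10 := by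
      refine (hn5 n (by omega) (n - k - 1) (by omega)).trans ?_
      apply mul_le_mul_of_nonneg_left _ hn0
      calc Real.log n ^ 5 ≤ ((d : ℝ) ^ 2) ^ 5 := pow_le_pow_left₀ hl0 hlog _
        _ = (d : ℝ) ^ 10 := by rw [← pow_mul]
    exact_mod_cast g1
  have hKA' : ((n * d ^ 10 : ℕ) : ℝ) ≤ K.card * (d : ℝ) ^ (A + 10) := by
    push_cast
    calc (n : ℝ) * (d : ℝ) ^ 10 ≤ (K.card * (d : ℝ) ^ A) * (d : ℝ) ^ 10 := mul_le_mul_of_nonneg_right hKA (by positivity)
      _ = _ := by rw [mul_assoc, ← pow_add]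
  refine le_trans (le_of_eq ?_) (h0 d (by omega) μ hμ y hy1 hy2 c hc h hh (n * d ^ 10) hX1 hX2 K p (fun k => p (p (n - k)))
    ((p_inj n).mono (by exact_mod_cast hK)) ((pp_inj n).mono (by exact_mod_cast hK)) hf hg hKA')
  apply sum_congr rfl
  intro v _
  congr!

lemma walks_eq {X : Type} (b : ℕ) (δ : X → ℕ → Option X) (k : ℕ) (x y : X) :
    walks b δ k x y = Pool.Agent.N625.GW.walks b δ k x y := rfl

open Classical in
/-- Let `δ 0`, `δ 1` be graphs (infinite or not) whose edges are labelled with the digits in base `b`, let `u j` be a vertex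
of the graph `δ j`, and let `ρ j > 0` be such that there are at most `ρ j ^ (2 n)` closed walks of the length `2 n` at `u j`,
for all `n`. Let `κ j ≠ 0`, `D`, `B`, `J`, `A`, `C`, `K₁`, `θ > 0` and `0 < ε ≤ 1` be fixed and let `d` be large. Let `z j` be
vertices such that the number of the walks of the length `d` from `u j` to `z j` is at least `ρ j ^ d / d ^ D`, let `y` be
between `θ log d` and `K₁ log d` (`θ > 0` is arbitrary), `M` the product of the primes `≤ y`, `|c j| ≤ B b ^ d`,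
`1 ≤ h j ≤ d ^ J`, `N_j = M h_j (c_j + κ_j v_j)`, let `n` be ANY integer with `b ^ d ≤ n d ^ C`, `n ≤ b ^ d d ^ C`, and let
`K` be ANY set of at least `n / d ^ A` integers `0 < k < n` (for example the set of all of them). Then for all the pairs
`(v_0, v_1)` such that the `d` digits of `v j` in base `b` are the labels of a walk from `u j` to `z j`, with the exception of
a proportion of at most `ε` of these pairs: if `N_0, N_1 > 0`, then the number of the `k ∈ K` such that `p_k + N_0` and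
`p_{p_m} + N_1`, `m = n - k`, are both prime differs from `E = #K / (V y log b ^ d) ^ 2` by at most `ε E`.

(For a group of polynomial growth, a free group, or any group with the property of rapid decay, there are at least
`ρ ^ d / d ^ D` closed walks of every even length `d` in the Cayley graph, where `ρ` is its spectral radius.) -/
theorem result (b : ℕ) (X : Fin 2 → Type) (δ : ∀ j, X j → ℕ → Option (X j)) (hG : ∀ j, Graph b (δ j)) (u : ∀ j, X j)
    (ρ : Fin 2 → ℝ) (hρ : ∀ j, 0 < ρ j)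
    (hR : ∀ j, ∀ n : ℕ, ((walks b (δ j) (2 * n) (u j) (u j)).card : ℝ) ≤ ρ j ^ (2 * n))
    (κ : Fin 2 → ℤ) (hκ : ∀ j, κ j ≠ 0) (D B J A C K₁ : ℕ) (θ : ℝ) (hθ : 0 < θ) (ε : ℝ) (hε : 0 < ε) (hε1 : ε ≤ 1) :
    ∃ d₀ : ℕ, ∀ d : ℕ, d₀ ≤ d → ∀ z : ∀ j, X j,
      (∀ j, ρ j ^ d / (d : ℝ) ^ D ≤ (walks b (δ j) d (u j) (z j)).card) →
      ∀ y : ℕ, θ * Real.log d ≤ y → y ≤ K₁ * Real.log d →
      ∀ c : Fin 2 → ℤ, (∀ j, |c j| ≤ B * (b : ℤ) ^ d) → ∀ h : Fin 2 → ℕ, (∀ j, 1 ≤ h j ∧ h j ≤ d ^ J) →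
      ∀ n : ℕ, b ^ d ≤ n * d ^ C → n ≤ b ^ d * d ^ C → ∀ K : Finset ℕ, K ⊆ Ioo 0 n → (n : ℝ) ≤ K.card * (d : ℝ) ^ A →
        (((Fintype.piFinset fun j => walks b (δ j) d (u j) (z j)).filter fun v =>
          ¬ ((∀ j, 0 < Nv y (h j) (c j) (κ j) (v j)) →
          |((Good n K (Nv y (h 0) (c 0) (κ 0) (v 0)) (Nv y (h 1) (c 1) (κ 1) (v 1))).card : ℝ) -
            K.card / (V y * (d * Real.log b)) ^ 2| ≤ ε * (K.card / (V y * (d * Real.log b)) ^ 2))).card : ℝ) ≤
          ε * (Fintype.piFinset fun j => walks b (δ j) d (u j) (z j)).card := by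
  have hG' : ∀ j, Pool.Agent.N625.GW.Graph b (δ j) := fun j => ⟨(hG j).symm, (hG j).two⟩
  have hb : 2 ≤ b := Pool.Agent.N625.GW.two_le (hG' 0) (u 0)
  obtain ⟨d₀, h0⟩ := main b _ hb (fun j => Pool.Agent.N625.GW.WC b (δ j) (u j) (ρ j) D)
    (fun j => Pool.Agent.U847.XP.w_scls (hG' j) (u j) (ρ j) (hρ j) (hR j) D) κ hκ B J A C K₁ θ hθ ε hε hε1
  refine ⟨d₀ + 1, fun d hd z hz y hy1 hy2 c hc h hh n hn1 hn2 K hK hKA => ?_⟩
  have hd1 : 1 ≤ d := by omega
  have key := Pool.Agent.U847.XW.w_nums hρ hd1 hz (fun v : Fin 2 → ℕ => (∀ j, 0 < Nv y (h j) (c j) (κ j) (v j)) →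
          |((Good n K (Nv y (h 0) (c 0) (κ 0) (v 0)) (Nv y (h 1) (c 1) (κ 1) (v 1))).card : ℝ) -
            K.card / (V y * (d * Real.log b)) ^ 2| ≤ ε * (K.card / (V y * (d * Real.log b)) ^ 2)) (ε := ε)
    (fun p hp => by
      refine le_trans (le_of_eq ?_) (h0 d (by omega) p hp y hy1 hy2 c hc h hh n hn1 hn2 K hK hKA)
      apply sum_congr rfl
      intro v _
      congr!)
  simp only [walks_eq]
  refine le_trans (le_of_eq ?_) key
  congr!

end Pool.Agent.Results.MP_04e9b2_nt.WalkPairs
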