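import Pool.Agent.U331.SU.Sum
import Pool.Agent.Results.MP_04e9b2_nt.WalkPairs

/-!
# EVERY large `n`: the number of the `k` in an arbitrary dense subset of `(0, n)` with `p_k + N` and `p_{p_m} + N'` prime,
`m = n - k`, for multiples `N`, `N'` of sums of independent random integers (words of codes at arbitrary positions, for example)

The even numbers are `N_j = h_j M (c_j + κ_j v_j)`, where `M` is the product of the primes `≤ y` and the `v_j` are sums of
independent random integers with a joint lattice condition (`Sums`); no single digit of them needs to be variable.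

From Mathlib: `Nat.nth Nat.Prime`: the sequence of the primes; `primorial y`: the product of the primes `≤ y`;
`Finset.Ioo 0 n`: the integers `0 < k < n`; `Fintype.piFinset S`: the vectors `v` with `v j ∈ S j`.

Method. New here: the exponential sums over such random integers. If the product of a frequency with `R b ^ j` is far from
the integers, then so is its product with one of the differences `x_t - y_t`, and the characteristic function of the
summand number `n_t` loses a constant factor at this frequency. So the exponential sum decays exponentially in the number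
of the positions at which the frequency, multiplied with `R`, is far from the integers (`Pool.Agent.U331.SU`). The passage
from such a decay to the sieve, to the second moment and to the number of the primes in random translates is helper847's
(`Pool.Agent.U847.XP.SCls`, generic in the class of distributions, after the starting files `Pool.Agent.N625.PT.X2` - `X12`),
and the law for the pairs is his `Pool.Agent.Results.MP_04e9b2_nt.WalkPairs.main`.
-/

set_option autoImplicit false

namespace Pool.Agent.Results.MP_04e9b2_nt.IndependentSumPairs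

open Finset

/-- `p` is the distribution of a sum of `N` independent random integers: the summand number `n` takes the values `x ∈ S n` with
the probabilities `π n x`, and the values of the sum are `< b ^ k`. For all but at most `s` of the positions `j < k` the number
`R b ^ j` is a combination `∑ t, c_t (x_t - y_t)`, `t < s`, with integers `|c_t| ≤ s`, where `x_t` and `y_t` are values which one
of the summands, the one with the number `n_t`, takes with a probability of at least `η`; and every summand is used in this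
way for at most `s` positions. (Examples: independent random digits, each from an arbitrary set with at least two elements;
palindromes with independent pairs of opposite digits, `R = b ^ 2 - 1`; the integers whose digits in arbitrary blocks of
boundedly many positions are independent random words of arbitrary codes which are not contained in a hyperplane, no single
digit of which needs to be variable; sums of several integers of this kind.) -/
structure Sums (b s R : ℕ) (η : ℝ) (k : ℕ) (p : ℕ → ℝ) : Prop where
  ex : ∃ (N : ℕ) (S : Fin N → Finset ℕ) (π : Fin N → ℕ → ℝ),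
    (∀ n, (∀ x, 0 ≤ π n x) ∧ ∑ x ∈ S n, π n x = 1) ∧
    (∀ x ∈ Fintype.piFinset S, ∑ n, x n < b ^ k) ∧
    (∀ v, p v = ∑ x ∈ (Fintype.piFinset S).filter (fun x => ∑ n, x n = v), ∏ n, π n (x n)) ∧
    ∃ (J : Finset ℕ) (n : ℕ → Fin s → Fin N) (c : ℕ → Fin s → ℤ) (x y : ℕ → Fin s → ℕ),
      (J ⊆ range k ∧ k ≤ J.card + s) ∧
      (∀ j ∈ J, ((R * b ^ j : ℕ) : ℤ) = ∑ t, c j t * ((x j t : ℤ) - y j t)) ∧
      (∀ j ∈ J, ∀ t, |c j t| ≤ s ∧ (x j t ∈ S (n j t) ∧ y j t ∈ S (n j t)) ∧
        η ≤ π (n j t) (x j t) ∧ η ≤ π (n j t) (y j t)) ∧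
      ∀ m : Fin N, (J.filter fun j => ∃ t, n j t = m).card ≤ s

lemma conv {b s R : ℕ} {η : ℝ} {k : ℕ} {p : ℕ → ℝ} (h : Sums b s R η k p) : Pool.Agent.U331.SU.Sums b s R η k p := ⟨h.ex⟩

/-- the `n`-th prime, `n ≥ 1` -/
noncomputable def p (n : ℕ) : ℕ := Nat.nth Nat.Prime (n - 1)

/-- the product of `1 - 1/q` over the primes `q ≤ y` -/
noncomputable def V (y : ℕ) : ℝ := ∏ q ∈ (Icc 1 y).filter Nat.Prime, (1 - 1 / (q : ℝ))

/-- the multiple of the product of the primes `≤ y` given by the integers `h` and `c + κ v` -/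
def Nv (y h : ℕ) (c κ : ℤ) (v : ℕ) : ℤ := ((primorial y * h : ℕ) : ℤ) * (c + κ * v)

/-- the `k ∈ K` such that `p_k + N` and `p_{p_m} + N'` are prime, where `m = n - k` -/
noncomputable def Good (n : ℕ) (K : Finset ℕ) (N N' : ℤ) : Finset ℕ :=
  K.filter (fun k : ℕ => (N + (p k : ℕ)).toNat.Prime ∧ (N' + (p (p (n - k)) : ℕ)).toNat.Prime)

open Classical in
/-- Let `b ≥ 2`, `s`, `R ≥ 1`, `η > 0`, `κ j ≠ 0` for `j < 2`, `B`, `J`, `A`, `C`, `K₁`, `θ > 0` and `0 < ε ≤ 1` be fixed and let `d` be
large. Let `μ 0`, `μ 1` be distributions on the words of `d` digits in base `b` with `Sums b s R η d (μ j)`, let `y` be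
between `θ log d` and `K₁ log d` (`θ > 0` is arbitrary), `M` the product of the primes `≤ y`, `|c j| ≤ B b ^ d`,
`1 ≤ h j ≤ d ^ J`, `N_j = M h_j (c_j + κ_j v_j)`, let `n` be ANY integer with `b ^ d ≤ n d ^ C`, `n ≤ b ^ d d ^ C`, and let
`K` be ANY set of at least `n / d ^ A` integers `0 < k < n` (for example the set of all of them). If `v_0`, `v_1` are
independent random integers with the distributions `μ 0`, `μ 1`, then with a probability of at least `1 - ε`: if
`N_0, N_1 > 0`, then the number of the `k ∈ K` such that `p_k + N_0` and `p_{p_m} + N_1`, `m = n - k`, are both prime differs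
from `E = #K / (V y log b ^ d) ^ 2` by at most `ε E`. -/
theorem result (b : ℕ) (hb : 2 ≤ b) (s R : ℕ) (hR : 1 ≤ R) (η : ℝ) (hη0 : 0 < η) (κ : Fin 2 → ℤ) (hκ : ∀ j, κ j ≠ 0)
    (B J A C K₁ : ℕ) (θ : ℝ) (hθ : 0 < θ) (ε : ℝ) (hε : 0 < ε) (hε1 : ε ≤ 1) :
    ∃ d₀ : ℕ, ∀ d : ℕ, d₀ ≤ d → ∀ μ : Fin 2 → ℕ → ℝ, (∀ j, Sums b s R η d (μ j)) →
      ∀ y : ℕ, θ * Real.log d ≤ y → y ≤ K₁ * Real.log d →
      ∀ c : Fin 2 → ℤ, (∀ j, |c j| ≤ B * (b : ℤ) ^ d) → ∀ h : Fin 2 → ℕ, (∀ j, 1 ≤ h j ∧ h j ≤ d ^ J) →
      ∀ n : ℕ, b ^ d ≤ n * d ^ C → n ≤ b ^ d * d ^ C → ∀ K : Finset ℕ, K ⊆ Ioo 0 n → (n : ℝ) ≤ K.card * (d : ℝ) ^ A →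
        ∑ v ∈ Fintype.piFinset (fun _ : Fin 2 => range (b ^ d)),
          (if (∀ j, 0 < Nv y (h j) (c j) (κ j) (v j)) →
            |((Good n K (Nv y (h 0) (c 0) (κ 0) (v 0)) (Nv y (h 1) (c 1) (κ 1) (v 1))).card : ℝ) -
              K.card / (V y * (d * Real.log b)) ^ 2| ≤ ε * (K.card / (V y * (d * Real.log b)) ^ 2)
            then 0 else ∏ j, μ j (v j)) ≤ ε := by
  obtain ⟨d₀, h0⟩ := Pool.Agent.Results.MP_04e9b2_nt.WalkPairs.main b _ hb (fun _ : Fin 2 => (Pool.Agent.U331.SU.Sums b s R η))
    (fun _ => (Pool.Agent.U331.SU.sums_scls b s R hb hR η hη0)) κ hκ B J A C K₁ θ hθ ε hε hε1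
  exact ⟨d₀, fun d hd μ hμ => h0 d hd μ (fun j => conv (hμ j))⟩

end Pool.Agent.Results.MP_04e9b2_nt.IndependentSumPairs
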